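import Pool.Agent.H.MP_c90f74_nt.BD.Main2

/-! Erdős's assertion for the integers with at most seven binary digits `1`.

Let `n ≥ 3` be an integer with at most seven binary digits `1` (`(Nat.digits 2 n).sum` is their number).
Then `n - 2^k` is prime for every `k`, `1 ≤ k ≤ 180`, with `2^k < n` if and only if `n` is one of
`4, 7, 15, 21, 45, 75, 105`: no `k > 180` is needed. -/

set_option autoImplicit false

namespace Pool.Agent.Results.MP_c90f74_nt.FewBinaryDigits

/-- Main theorem. -/
theorem result (n : ℕ) (h3 : 3 ≤ n) (h7 : (Nat.digits 2 n).sum ≤ 7) :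
    (∀ k : ℕ, 1 ≤ k → k ≤ 180 → 2 ^ k < n → (n - 2 ^ k).Prime) ↔
      n ∈ ({4, 7, 15, 21, 45, 75, 105} : Set ℕ) :=
  Pool.Agent.H.MP_c90f74_nt.BE.main n h3 h7

end Pool.Agent.Results.MP_c90f74_nt.FewBinaryDigits
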