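import Pool.Agent.H.MP_c90f74_nt.AW.Few

/-! Integers `n` of an arithmetic progression for which many of the numbers `n - 2^k`, `k ∈ W`, have few
prime factors.

For every `d > 0` there are `C`, `c > 0` and `x₀` such that for all integers `x ≥ x₀`, `D ≥ 1`, `H` and `z` with
`D H ≤ x`, `(log x)^C ≤ z`, `z^2 ≤ H`, and every set `W` of exponents `k`, `1 ≤ k`, `2^k ≤ x`, with
`log H ≤ |W| loglog x`, at most `H exp(- c log H / log z)` of the integers `n = x + D j`, `1 ≤ j ≤ H`, have the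
property that at least `d |W|` of the numbers `n - 2^k`, `k ∈ W`, have at most `c log (log z / loglog x)`
distinct prime factors `p ≤ z` which do not divide `D`.  -/

set_option autoImplicit false

namespace Pool.Agent.Results.MP_c90f74_nt.ManyPrimeFactors

/-- The number of the `k ∈ W`, `2^k < n`, such that `n - 2^k` has at most `r` distinct prime factors `p ≤ z`
which do not divide `D`. -/
noncomputable def fewCount (z D : ℕ) (r : ℝ) (W : Finset ℕ) (n : ℕ) : ℕ :=
  {k : ℕ | k ∈ W ∧ 2 ^ k < n ∧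
    ((((n - 2 ^ k).primeFactors.filter (fun p => p ≤ z ∧ ¬ p ∣ D)).card : ℕ) : ℝ) ≤ r}.ncard

/-- Main theorem. -/
theorem result (d : ℝ) (hd : 0 < d) : ∃ C : ℕ, ∃ c : ℝ, 0 < c ∧ ∃ x₀ : ℕ, ∀ x H D z : ℕ, x₀ ≤ x →
    1 ≤ D → D * H ≤ x → Real.log x ^ C ≤ z → z ^ 2 ≤ H →
    ∀ W : Finset ℕ, (∀ k ∈ W, 1 ≤ k ∧ 2 ^ k ≤ x) → Real.log H ≤ W.card * Real.log (Real.log x) →
    ({j : ℕ | 1 ≤ j ∧ j ≤ H ∧ d * W.card ≤
        fewCount z D (c * Real.log (Real.log z / Real.log (Real.log x))) W (x + D * j)}.ncard : ℝ) ≤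
      H * Real.exp (-(c * Real.log H / Real.log z)) :=
  Pool.Agent.H.MP_c90f74_nt.AW.few_main d hd

end Pool.Agent.Results.MP_c90f74_nt.ManyPrimeFactors
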