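import Pool.Agent.H.MP_c90f74_nt.AW.Small

/-! Integers `n` of an arithmetic progression for which few of the numbers `n - 2^k`, `k ∈ W`, have a small
prime factor.

For every `d > 0` there are `C`, `c > 0` and `x₀` such that for all integers `x ≥ x₀`, `D ≥ 1` and `H` with
`(log x)^C ≤ H`, `D H ≤ x`, every set `W` of exponents `k`, `1 ≤ k`, `2^k ≤ x`, and all real `ε` with
`log H ≤ ε |W| loglog x`, `ε ≤ 1 - d`, at most `H ε^(c log H / loglog x)` of the integers `n = x + D j`,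
`1 ≤ j ≤ H`, have the property that at most `ε |W|` of the numbers `n - 2^k`, `k ∈ W`, are divisible by a
smaller prime `p ≤ (log x)^C` which does not divide `D`.  The integers `n` for which all the numbers `n - 2^k`
are prime have this property for every `ε`.  -/

set_option autoImplicit false

namespace Pool.Agent.Results.MP_c90f74_nt.SmallFactors

/-- The number of the `k ∈ W`, `2^k < n`, such that `n - 2^k` is divisible by a prime `p ≤ z` with
`p < n - 2^k` which does not divide `D`. -/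
noncomputable def smallCount (z : ℝ) (D : ℕ) (W : Finset ℕ) (n : ℕ) : ℕ :=
  {k : ℕ | k ∈ W ∧ 2 ^ k < n ∧
    ∃ p : ℕ, p.Prime ∧ (p : ℝ) ≤ z ∧ ¬ p ∣ D ∧ p ∣ n - 2 ^ k ∧ p < n - 2 ^ k}.ncard

/-- Main theorem. -/
theorem result (d : ℝ) (hd : 0 < d) : ∃ C : ℕ, ∃ c : ℝ, 0 < c ∧ ∃ x₀ : ℕ, ∀ x H D : ℕ, x₀ ≤ x →
    Real.log x ^ C ≤ H → 1 ≤ D → D * H ≤ x →
    ∀ W : Finset ℕ, (∀ k ∈ W, 1 ≤ k ∧ 2 ^ k ≤ x) →
    ∀ ε : ℝ, Real.log H ≤ ε * W.card * Real.log (Real.log x) → ε ≤ 1 - d →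
    ({j : ℕ | 1 ≤ j ∧ j ≤ H ∧
        (smallCount (Real.log x ^ C) D W (x + D * j) : ℝ) ≤ ε * W.card}.ncard : ℝ) ≤
      H * ε ^ (c * Real.log H / Real.log (Real.log x)) :=
  Pool.Agent.H.MP_c90f74_nt.AW.small_main d hd

end Pool.Agent.Results.MP_c90f74_nt.SmallFactors
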