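import Pool.Agent.H.MP_c90f74_nt.UW.Main

/-!
# MP_c90f74_nt, UpperTail

There are `C`, `c > 0` such that for all `x ≥ 64`, all `H, D ≥ 1` with `D H ≤ x`, all finite sets `W` of
exponents contained in `[a + 1, a + N]` and every real `T` the number of the `j`, `1 ≤ j ≤ H`, for which
`x + D j - 2 ^ k` is prime for at least `T` exponents `k ∈ W` is at most
`C H (1 + c log H / (|W| log (N + ⌊log_2 D⌋ + 1))) ^ (-T)`.
-/

set_option autoImplicit false

namespace Pool.Agent.Results.MP_c90f74_nt.UpperTail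

theorem result : ∃ C c : ℝ, 0 < c ∧ ∀ x H D : ℕ, 64 ≤ x → 1 ≤ H → 1 ≤ D → D * H ≤ x →
    ∀ (a N : ℕ) (W : Finset ℕ), W ⊆ Finset.Icc (a + 1) (a + N) → ∀ T : ℝ,
      ({j : ℕ | 1 ≤ j ∧ j ≤ H ∧ T ≤ ((W.filter (fun k =>
        2 ^ k < x + D * j ∧ (x + D * j - 2 ^ k).Prime)).card : ℝ)}.ncard : ℝ) ≤
        C * H * (1 + c * Real.log H / (W.card * Real.log (N + Nat.log 2 D + 1))) ^ (-T) :=
  Pool.Agent.H.MP_c90f74_nt.UW.main

end Pool.Agent.Results.MP_c90f74_nt.UpperTail
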